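import Mathlib
import Pool.Agent.Run7.h472.OH.Iface

set_option autoImplicit false

/-!
# Pieces MEAS and TR (helper627)
-/

open MeasureTheory ProbabilityTheory Filter Set

namespace Pool.Agent.Run7.h627.OH

open Pool.Agent.N662.FP Pool.Agent.Run7.h472.OH

theorem t_MEAS : S_WBD → S_MEAS := by
  intro hW μ c C L hC n hn b
  have hb := fun x => (hW μ c C L hC n hn b x).1
  have hmeas : ∀ q : {q : Sq // Val L n b q}, Measurable fun x : Env =>
      (μ (em (q.1.2 (Fin.last _) - q.1.2 0)) - tmS x q.1) := by
    intro q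
    refine measurable_const.sub ?_
    unfold tmS
    refine Finset.measurable_sum _ fun i _ => ?_
    exact (measurable_pi_apply _).max measurable_const
  have hne : Nonempty {q : Sq // Val L n b q} := by
    refine ⟨⟨⟨0, fun _ => ((n : ℤ) * b.1, (n : ℤ) * b.2)⟩, ?_, ?_, ?_⟩⟩
    · show blk n ((n : ℤ) * b.1, (n : ℤ) * b.2) = b
      unfold blk
      have hn' : (n : ℤ) ≠ 0 := by exact_mod_cast (by omega : n ≠ 0)
      show ((n : ℤ) * b.1 / (n : ℤ), (n : ℤ) * b.2 / (n : ℤ)) = b
      rw [Int.mul_ediv_cancel_left _ hn', Int.mul_ediv_cancel_left _ hn']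
    · intro i
      unfold InR
      simp only [sub_self, abs_zero]
      constructor <;> positivity
    · intro i
      exact i.elim0
  refine measurable_of_Ioi fun a => ?_
  have : (fun x : Env => W μ L n b x) ⁻¹' Ioi a = ⋃ q : {q : Sq // Val L n b q},
      {x : Env | a < (μ (em (q.1.2 (Fin.last _) - q.1.2 0)) - tmS x q.1)} := by
    ext x
    simp only [mem_preimage, mem_Ioi, mem_iUnion, Set.mem_ofPred_eq]
    unfold W
    exact lt_ciSup_iff (hb x)
  rw [this]
  exact MeasurableSet.iUnion fun q => measurableSet_lt measurable_const (hmeas q)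

end Pool.Agent.Run7.h627.OH
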