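import Mathlib
import Pool.Agent.Run7.h472.OH.Iface
import Pool.Agent.N390.FL.TI

set_option autoImplicit false

/-!
# Piece IND (helper627): independence and stationarity of the local deficits
-/

open MeasureTheory ProbabilityTheory Filter Set
open scoped ENNReal

namespace Pool.Agent.Run7.h627.OH

open Pool.Agent.N662.FP Pool.Agent.Run7.h472.OH
open Pool.Agent.N390.FL.TI (sg sg_inj)

/-- the box of the block `b` -/
noncomputable def bx (L n : ℕ) (b : ℤ × ℤ) : Finset (ℤ × ℤ) :=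
  Finset.Icc ((n : ℤ) * b.1 - L * n) ((n : ℤ) * b.1 + L * n) ×ˢ
    Finset.Icc ((n : ℤ) * b.2 - L * n) ((n : ℤ) * b.2 + L * n)

theorem mem_bx {L n : ℕ} {b z : ℤ × ℤ} : z ∈ bx L n b ↔ InR L n b z := by
  unfold bx InR
  rw [Finset.mem_product, Finset.mem_Icc, Finset.mem_Icc, abs_le, abs_le]
  constructor
  · rintro ⟨⟨h1, h2⟩, h3, h4⟩
    exact ⟨⟨by linarith, by linarith⟩, by linarith, by linarith⟩
  · rintro ⟨⟨h1, h2⟩, h3, h4⟩
    exact ⟨⟨by linarith, by linarith⟩, by linarith, by linarith⟩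

open Classical in
/-- the edges inside the box -/
noncomputable def Eb (L n : ℕ) (b : ℤ × ℤ) : Finset (Sym2 (ℤ × ℤ)) :=
  (bx L n b ×ˢ bx L n b).image fun z => s(z.1, z.2)

theorem mem_Eb {L n : ℕ} {b y z : ℤ × ℤ} : s(y, z) ∈ Eb L n b ↔ InR L n b y ∧ InR L n b z := by
  classical
  unfold Eb
  rw [Finset.mem_image]
  constructor
  · rintro ⟨⟨u, v⟩, h1, h2⟩
    rw [Finset.mem_product, mem_bx, mem_bx] at h1
    simp only [Sym2.eq, Sym2.rel_iff', Prod.mk.injEq, Prod.swap_prod_mk] at h2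
    rcases h2 with ⟨h2, h3⟩ | ⟨h2, h3⟩
    · subst h2; subst h3
      exact h1
    · subst h2; subst h3
      exact ⟨h1.2, h1.1⟩
  · rintro ⟨h1, h2⟩
    exact ⟨(y, z), Finset.mem_product.2 ⟨mem_bx.2 h1, mem_bx.2 h2⟩, rfl⟩

theorem tmS_congr {L n : ℕ} {b : ℤ × ℤ} {x x' : Env} (h : ∀ e ∈ Eb L n b, x e = x' e) {q : Sq}
    (hq : Val L n b q) : tmS x q = tmS x' q := by
  unfold tmS
  refine Finset.sum_congr rfl fun i _ => ?_
  rw [h _ (mem_Eb.2 ⟨hq.inR _, hq.inR _⟩)]

theorem W_congr (μ : Seminorm ℝ (ℝ × ℝ)) {L n : ℕ} {b : ℤ × ℤ} {x x' : Env}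
    (h : ∀ e ∈ Eb L n b, x e = x' e) : W μ L n b x = W μ L n b x' := by
  unfold W
  congr 1
  funext q
  rw [tmS_congr h q.2]

theorem far {L n : ℕ} (hn : 1 ≤ n) {b b' : ℤ × ℤ} (h : 2 * L + 1 ≤ nm (b - b')) :
    Disjoint (Eb L n b) (Eb L n b') := by
  rw [Finset.disjoint_left]
  intro e
  induction e using Sym2.ind with
  | _ y z =>
    intro h1 h2
    rw [mem_Eb] at h1 h2
    obtain ⟨⟨h3, h4⟩, -⟩ := h1
    obtain ⟨⟨h5, h6⟩, -⟩ := h2
    have hn' : (0 : ℤ) < n := by exact_mod_cast hn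
    have key : ∀ u v w : ℤ, |w - (n : ℤ) * u| ≤ (L : ℤ) * n → |w - (n : ℤ) * v| ≤ (L : ℤ) * n →
        |u - v| ≤ 2 * L := by
      intro u v w h7 h8
      have h9 : |(n : ℤ) * (u - v)| ≤ 2 * L * n := by
        have : (n : ℤ) * (u - v) = (w - (n : ℤ) * v) - (w - (n : ℤ) * u) := by ring
        rw [this]
        calc |(w - (n : ℤ) * v) - (w - (n : ℤ) * u)| ≤ |w - (n : ℤ) * v| + |w - (n : ℤ) * u| :=
              abs_sub _ _
          _ ≤ 2 * L * n := by linarith
      rw [abs_mul, abs_of_pos hn'] at h9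
      have : (n : ℤ) * |u - v| ≤ n * (2 * L) := by linarith
      exact le_of_mul_le_mul_left this hn'
    have h7 := key _ _ _ h3 h5
    have h8 := key _ _ _ h4 h6
    unfold nm at h
    rw [Prod.fst_sub, Prod.snd_sub] at h
    rw [Int.abs_eq_natAbs] at h7 h8
    omega

/-- extension by zero -/
noncomputable def ext0 (S : Finset (Sym2 (ℤ × ℤ))) (y : S → ℝ) : Env := by
  classical
  exact fun e => if h : e ∈ S then y ⟨e, h⟩ else 0

theorem ext0_meas (S : Finset (Sym2 (ℤ × ℤ))) : Measurable (ext0 S) := by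
  classical
  refine measurable_pi_iff.2 fun e => ?_
  unfold ext0
  by_cases h : e ∈ S
  · simp only [h, dite_true]
    exact measurable_pi_apply _
  · simp only [h, dite_false]
    exact measurable_const

theorem W_ext (μ : Seminorm ℝ (ℝ × ℝ)) {L n : ℕ} {b : ℤ × ℤ} {S : Finset (Sym2 (ℤ × ℤ))}
    (hS : Eb L n b ⊆ S) (x : Env) : W μ L n b x = W μ L n b (ext0 S fun e => x e) := by
  classical
  refine W_congr μ fun e he => ?_
  unfold ext0
  rw [dif_pos (hS he)]

theorem indep {Ω : Type} [MeasureSpace Ω] [IsProbabilityMeasure (volume : Measure Ω)]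
    {X : Sym2 (ℤ × ℤ) → Ω → ℝ} (hX : Iid X) {μ : Seminorm ℝ (ℝ × ℝ)} {L n : ℕ} (hn : 1 ≤ n)
    (hm : ∀ b : ℤ × ℤ, Measurable fun x : Env => W μ L n b x) {f : ℝ → ℝ≥0∞} (hf : Measurable f)
    (A : Finset (ℤ × ℤ)) (hA : ∀ b ∈ A, ∀ b' ∈ A, b ≠ b' → 2 * L + 1 ≤ nm (b - b')) :
    ∫⁻ ω, ∏ b ∈ A, f (W μ L n b (env X ω)) ∂(volume : Measure Ω) =
      ∏ b ∈ A, ∫⁻ ω, f (W μ L n b (env X ω)) ∂(volume : Measure Ω) := by
  classical
  have hmX : Measurable fun ω => env X ω := measurable_pi_iff.2 fun e => hX.meas e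
  induction A using Finset.induction_on with
  | empty => simp
  | insert j A hj ih =>
    have ih' := ih fun b hb b' hb' hne =>
      hA b (Finset.mem_insert_of_mem hb) b' (Finset.mem_insert_of_mem hb') hne
    rw [Finset.prod_insert hj, ← ih']
    simp only [Finset.prod_insert hj]
    have hd : Disjoint (Eb L n j) (A.biUnion (Eb L n)) := by
      rw [Finset.disjoint_biUnion_right]
      intro b hb
      refine far hn (hA j (Finset.mem_insert_self _ _) b (Finset.mem_insert_of_mem hb) ?_)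
      rintro rfl
      exact hj hb
    have hi := hX.ind.indepFun_finset (Eb L n j) (A.biUnion (Eb L n)) hd hX.meas
    have h1 : Measurable fun y : (Eb L n j) → ℝ => f (W μ L n j (ext0 _ y)) :=
      hf.comp ((hm j).comp (ext0_meas _))
    have h2 : Measurable fun y : (A.biUnion (Eb L n) : Finset _) → ℝ =>
        ∏ b ∈ A, f (W μ L n b (ext0 _ y)) :=
      Finset.measurable_fun_prod _ fun b _ => hf.comp ((hm b).comp (ext0_meas _))
    have hi2 := hi.comp h1 h2
    have e1 : (fun ω => f (W μ L n j (env X ω))) =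
        (fun y : (Eb L n j) → ℝ => f (W μ L n j (ext0 _ y))) ∘
          (fun ω (i : Eb L n j) => X i ω) := by
      funext ω
      show f (W μ L n j (env X ω)) = f (W μ L n j (ext0 _ fun i => X i ω))
      rw [W_ext μ (Finset.Subset.refl (Eb L n j)) (env X ω)]
      rfl
    have e2 : (fun ω => ∏ b ∈ A, f (W μ L n b (env X ω))) =
        (fun y : (A.biUnion (Eb L n) : Finset _) → ℝ => ∏ b ∈ A, f (W μ L n b (ext0 _ y))) ∘
          (fun ω (i : (A.biUnion (Eb L n) : Finset _)) => X i ω) := by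
      funext ω
      show ∏ b ∈ A, f (W μ L n b (env X ω)) =
        ∏ b ∈ A, f (W μ L n b (ext0 _ fun i : (A.biUnion (Eb L n) : Finset _) => X i ω))
      refine Finset.prod_congr rfl fun b hb => ?_
      rw [W_ext μ (Finset.subset_biUnion_of_mem (Eb L n) hb) (env X ω)]
      rfl
    have h3 : (fun ω => f (W μ L n j (env X ω))) ⟂ᵢ[(volume : Measure Ω)]
        (fun ω => ∏ b ∈ A, f (W μ L n b (env X ω))) := by
      rw [e1, e2]
      exact hi2
    exact lintegral_mul_eq_lintegral_mul_lintegral_of_indepFun''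
      (hf.comp ((hm j).comp hmX)).aemeasurable
      (Finset.measurable_fun_prod _ fun b _ => hf.comp ((hm b).comp hmX)).aemeasurable h3

/-- the corner of the block -/
def cor (n : ℕ) (b : ℤ × ℤ) : ℤ × ℤ := ((n : ℤ) * b.1, (n : ℤ) * b.2)

theorem val_shift {L n : ℕ} (hn : 1 ≤ n) (b : ℤ × ℤ) (m : ℕ) (q : Fin (m + 1) → ℤ × ℤ) :
    Val L n b ⟨m, q⟩ ↔ Val L n 0 ⟨m, fun i => q i - cor n b⟩ := by
  have hn' : (n : ℤ) ≠ 0 := by exact_mod_cast (by omega : n ≠ 0)
  have hb : ∀ z : ℤ × ℤ, blk n (z - cor n b) = blk n z - b := by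
    intro z
    unfold blk cor
    ext
    · show (z.1 - (n : ℤ) * b.1) / (n : ℤ) = z.1 / n - b.1
      rw [sub_eq_add_neg, ← mul_neg, Int.add_mul_ediv_left _ _ hn', ← sub_eq_add_neg]
    · show (z.2 - (n : ℤ) * b.2) / (n : ℤ) = z.2 / n - b.2
      rw [sub_eq_add_neg, ← mul_neg, Int.add_mul_ediv_left _ _ hn', ← sub_eq_add_neg]
  have hr : ∀ z : ℤ × ℤ, InR L n 0 (z - cor n b) ↔ InR L n b z := by
    intro z
    unfold InR cor
    simp
  constructor
  · intro h
    refine ⟨?_, fun i => ?_, fun i => ?_⟩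
    · show blk n (q 0 - cor n b) = 0
      have h1 : blk n (q 0) = b := h.start
      rw [hb, h1, sub_self]
    · exact (hr _).2 (h.inR i)
    · have h1 := h.step i
      simp only [Prod.fst_sub, Prod.snd_sub, sub_sub_sub_cancel_right]
      exact h1
  · intro h
    refine ⟨?_, fun i => ?_, fun i => ?_⟩
    · show blk n (q 0) = b
      have h1 : blk n (q 0 - cor n b) = 0 := h.start
      rw [hb, sub_eq_zero] at h1
      exact h1
    · exact (hr _).1 (h.inR i)
    · have h1 := h.step i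
      simp only [Prod.fst_sub, Prod.snd_sub, sub_sub_sub_cancel_right] at h1
      exact h1

theorem W_shift (μ : Seminorm ℝ (ℝ × ℝ)) {L n : ℕ} (hn : 1 ≤ n) (b : ℤ × ℤ) (x : Env) :
    W μ L n b x = W μ L n 0 fun e => x (sg (cor n b) e) := by
  unfold W
  refine Equiv.iSup_congr
    { toFun := fun q => ⟨⟨q.1.1, fun i => q.1.2 i - cor n b⟩, (val_shift hn b _ _).1 q.2⟩
      invFun := fun q => ⟨⟨q.1.1, fun i => q.1.2 i + cor n b⟩, (val_shift hn b _ _).2 (by
        have := q.2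
        simpa using this)⟩
      left_inv := fun q => by simp
      right_inv := fun q => by simp } fun q => ?_
  show μ (N662.FP.em ((q.1.2 (Fin.last _) - cor n b) - (q.1.2 0 - cor n b))) -
      tmS (fun e => x (sg (cor n b) e)) ⟨q.1.1, fun i => q.1.2 i - cor n b⟩ =
    μ (N662.FP.em (q.1.2 (Fin.last _) - q.1.2 0)) - tmS x q.1
  rw [sub_sub_sub_cancel_right]
  congr 1
  unfold tmS
  refine Finset.sum_congr rfl fun i _ => ?_
  show max (x s(cor n b + (q.1.2 i.castSucc - cor n b), cor n b + (q.1.2 i.succ - cor n b))) 0 = _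
  rw [add_sub_cancel, add_sub_cancel]

theorem stat {Ω : Type} [MeasureSpace Ω] [IsProbabilityMeasure (volume : Measure Ω)]
    {X : Sym2 (ℤ × ℤ) → Ω → ℝ} (hX : Iid X) {μ : Seminorm ℝ (ℝ × ℝ)} {L n : ℕ} (hn : 1 ≤ n)
    (hm : ∀ b : ℤ × ℤ, Measurable fun x : Env => W μ L n b x) {f : ℝ → ℝ≥0∞} (hf : Measurable f)
    (b : ℤ × ℤ) :
    ∫⁻ ω, f (W μ L n b (env X ω)) ∂(volume : Measure Ω) =
      ∫⁻ ω, f (W μ L n 0 (env X ω)) ∂(volume : Measure Ω) := by
  set a := cor n b with ha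
  have hg : Measurable fun x : Env => f (W μ L n 0 x) := hf.comp (hm 0)
  have m1 : Measurable (fun ω (e : Sym2 (ℤ × ℤ)) => X (sg a e) ω) :=
    measurable_pi_iff.2 fun e => hX.meas _
  have m2 : Measurable (fun ω (e : Sym2 (ℤ × ℤ)) => X e ω) := measurable_pi_iff.2 fun e => hX.meas e
  have l1 : Measure.map (fun ω (e : Sym2 (ℤ × ℤ)) => X (sg a e) ω) (volume : Measure Ω) =
      Measure.infinitePi (fun _ : Sym2 (ℤ × ℤ) => expMeasure 1) := by
    have h3 : iIndepFun (fun e => X (sg a e)) (volume : Measure Ω) := hX.ind.precomp (sg_inj a)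
    have h4 := (iIndepFun_iff_map_fun_eq_infinitePi_map (fun e => hX.meas (sg a e))).1 h3
    rw [h4]
    congr 1
    funext e
    exact hX.law _
  have l2 : Measure.map (fun ω (e : Sym2 (ℤ × ℤ)) => X e ω) (volume : Measure Ω) =
      Measure.infinitePi (fun _ : Sym2 (ℤ × ℤ) => expMeasure 1) := by
    have h4 := (iIndepFun_iff_map_fun_eq_infinitePi_map hX.meas).1 hX.ind
    rw [h4]
    congr 1
    funext e
    exact hX.law _
  have e1 : ∫⁻ ω, f (W μ L n b (env X ω)) ∂(volume : Measure Ω) =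
      ∫⁻ ω, (fun x : Env => f (W μ L n 0 x)) (fun e => X (sg a e) ω) ∂(volume : Measure Ω) := by
    refine lintegral_congr fun ω => ?_
    show f (W μ L n b (env X ω)) = f (W μ L n 0 fun e => X (sg a e) ω)
    rw [W_shift μ hn b]
    rfl
  rw [e1, ← lintegral_map hg m1, l1, ← l2, lintegral_map hg m2]
  rfl

theorem t_IND : S_WBD → S_MEAS → S_IND := by
  intro _ hM Ω _ _ X hX μ c C L hC n hn f hf A hA
  have hm : ∀ b : ℤ × ℤ, Measurable fun x : Env => W μ L n b x := hM μ c C L hC n hn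
  rw [indep hX hn hm hf A hA, Finset.prod_congr rfl fun b _ => stat hX hn hm hf b,
    Finset.prod_const]

end Pool.Agent.Run7.h627.OH
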